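import Pool.Agent.helper38.OB.Spec

/-!
# Row LIM: the infinite set as a limit of the finite ones
-/

set_option autoImplicit false

namespace Pool.Agent.OB

open Finset

theorem LIM_ev (F : ℕ → Finset ℕ) (A : Set ℕ)
    (hA : A = {x | ∀ᶠ L in (Filter.hyperfilter ℕ : Filter ℕ), x ∈ F L}) (G : Finset ℕ) (l : ℕ) :
    ∃ L, l ≤ L ∧ ∀ x ∈ G, (x ∈ A ↔ x ∈ F L) := by
  have h1 : ∀ x ∈ G, ∀ᶠ L in (Filter.hyperfilter ℕ : Filter ℕ), (x ∈ A ↔ x ∈ F L) := by
    intro x _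
    by_cases hx : x ∈ A
    · have h2 : ∀ᶠ L in (Filter.hyperfilter ℕ : Filter ℕ), x ∈ F L := by
        rw [hA] at hx
        exact hx
      exact h2.mono fun L hL => ⟨fun _ => hL, fun _ => hx⟩
    · have h2 : ∀ᶠ L in (Filter.hyperfilter ℕ : Filter ℕ), ¬ x ∈ F L := by
        rw [Ultrafilter.eventually_not]
        intro h3
        apply hx
        rw [hA]
        exact h3
      exact h2.mono fun L hL => ⟨fun h => absurd h hx, fun h => absurd h hL⟩
  have h2 : ∀ᶠ L in (Filter.hyperfilter ℕ : Filter ℕ), ∀ x ∈ G, (x ∈ A ↔ x ∈ F L) :=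
    (Filter.eventually_all_finset G).2 h1
  have h3 : ∀ᶠ L in (Filter.hyperfilter ℕ : Filter ℕ), l ≤ L :=
    Nat.hyperfilter_le_atTop (Filter.eventually_ge_atTop l)
  obtain ⟨L, hL⟩ := (h3.and h2).exists
  exact ⟨L, hL.1, hL.2⟩

theorem LIM_bd {α : Type} (X : Set α) (B : ℝ) (h : ∀ G : Finset α, (G : Set α) ⊆ X → (G.card : ℝ) ≤ B) :
    X.Finite ∧ (X.ncard : ℝ) ≤ B := by
  have hf : X.Finite := by
    by_contra hinf
    obtain ⟨G, hG, hc⟩ := Set.Infinite.exists_subset_card_eq hinf (⌈B⌉₊ + 1)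
    have h1 := h G hG
    rw [hc] at h1
    push_cast at h1
    have h2 := Nat.le_ceil B
    linarith
  refine ⟨hf, ?_⟩
  rw [Set.ncard_eq_toFinset_card X hf]
  exact h _ (by rw [Set.Finite.coe_toFinset])

theorem LIM_tup {h : ℕ} (F : ℕ → Finset ℕ) (A : Set ℕ)
    (hA : A = {x | ∀ᶠ L in (Filter.hyperfilter ℕ : Filter ℕ), x ∈ F L}) (e : Fin h → ℤ)
    (P : ℤ → Prop) (B : ℝ) (hB : ∀ L, ((NC e P (F L)).card : ℝ) ≤ B) :
    (Tup A e P).Finite ∧ ((Tup A e P).ncard : ℝ) ≤ B := by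
  classical
  refine LIM_bd _ B fun G hG => ?_
  obtain ⟨L, -, hL⟩ := LIM_ev F A hA (G.biUnion fun x => Finset.univ.image x) 0
  refine le_trans ?_ (hB L)
  have h1 : G ⊆ NC e P (F L) := by
    intro x hx
    obtain ⟨h1, h2, h3⟩ := hG hx
    unfold NC
    rw [Finset.mem_filter, Fintype.mem_piFinset]
    refine ⟨fun i => ?_, h2, h3⟩
    refine (hL (x i) ?_).1 (h1 i)
    rw [Finset.mem_biUnion]
    exact ⟨x, hx, Finset.mem_image_of_mem _ (Finset.mem_univ _)⟩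
  exact_mod_cast Finset.card_le_card h1

theorem LIM (hFIN : FIN_stmt) : LIM_stmt := by
  classical
  intro h hodd hh η hη
  obtain ⟨κ, C, l0, hκ, hF⟩ := hFIN h hodd hh η hη
  choose F hFU hFS hFN using hF
  set A : Set ℕ := {x | ∀ᶠ L in (Filter.hyperfilter ℕ : Filter ℕ), x ∈ F L} with hA
  refine ⟨κ, C, l0, A, hκ, ?_, ?_⟩
  · intro l hl
    obtain ⟨L, hlL, hL⟩ := LIM_ev F A hA (S h l) l
    have h1 : A ∩ (S h l : Set ℕ) = ((F L ∩ S h l : Finset ℕ) : Set ℕ) := by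
      ext x
      rw [Set.mem_inter_iff, Finset.coe_inter, Set.mem_inter_iff]
      constructor
      · rintro ⟨h1, h2⟩
        exact ⟨(hL x h2).1 h1, h2⟩
      · rintro ⟨h1, h2⟩
        exact ⟨(hL x h2).2 h1, h2⟩
    rw [h1, Set.ncard_coe_finset]
    exact hFS L l hl hlL
  · intro e he
    refine ⟨fun N hN => ?_, fun t => ?_⟩
    · exact LIM_tup F A hA e _ _ fun L => (hFN L e he).1 N hN
    · exact LIM_tup F A hA e _ _ fun L => (hFN L e he).2 t

end Pool.Agent.OB
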