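import Pool.Agent.helper38.OB.Spec

/-!
# Row PAT: a non-cancelling tuple is an injective tuple with larger coefficients
-/

set_option autoImplicit false

namespace Pool.Agent.OB

open Finset

/-- the coefficients of the injective tuple -/
def PAT_c {h j : ℕ} (e : Fin h → ℤ) (π : Fin h → Fin j) : Fin j → ℤ :=
  fun i => ∑ k, if π k = i then e k else 0

theorem PAT_lf {h j : ℕ} (e : Fin h → ℤ) (π : Fin h → Fin j) (y : Fin j → ℕ) :
    lf (PAT_c e π) y = lf e (fun k => y (π k)) := by
  unfold lf PAT_c
  simp only [Finset.sum_mul]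
  rw [Finset.sum_comm]
  refine Finset.sum_congr rfl fun k _ => ?_
  simp only [ite_mul, zero_mul]
  rw [Finset.sum_ite_eq]
  simp

theorem PAT_card {h j : ℕ} (e : Fin h → ℤ) (π : Fin h → Fin j)
    (hc : ∀ k k', π k = π k' → e k = e k') (i : Fin j) (k0 : Fin h) (hk : π k0 = i) :
    PAT_c e π i = ((Finset.univ.filter fun k => π k = i).card : ℤ) * e k0 := by
  unfold PAT_c
  rw [← Finset.sum_filter]
  have h1 : ∑ k ∈ Finset.univ.filter (fun k => π k = i), e k =
      ∑ k ∈ Finset.univ.filter (fun k => π k = i), e k0 := by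
    refine Finset.sum_congr rfl fun k hk' => ?_
    rw [Finset.mem_filter] at hk'
    exact hc k k0 (hk'.2.trans hk.symm)
  rw [h1, Finset.sum_const, nsmul_eq_mul]

theorem PAT_good {h j : ℕ} (e : Fin h → ℤ) (he : Sg e) (π : Fin h → Fin j)
    (hs : ∀ i, ∃ k, π k = i) (hc : ∀ k k', π k = π k' → e k = e k') :
    Cf h (PAT_c e π) ∧ (j = h → Sg (PAT_c e π)) := by
  refine ⟨fun i => ?_, fun hj i => ?_⟩
  · obtain ⟨k0, hk⟩ := hs i
    rw [PAT_card e π hc i k0 hk]
    have h1 : 0 < (Finset.univ.filter fun k => π k = i).card :=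
      Finset.card_pos.2 ⟨k0, Finset.mem_filter.2 ⟨Finset.mem_univ _, hk⟩⟩
    have h2 : (Finset.univ.filter fun k => π k = i).card ≤ h := by
      have h3 := Finset.card_filter_le (Finset.univ : Finset (Fin h)) (fun k => π k = i)
      rwa [Finset.card_univ, Fintype.card_fin] at h3
    have h1' : (0 : ℤ) < ((Finset.univ.filter fun k => π k = i).card : ℤ) := by exact_mod_cast h1
    have h2' : ((Finset.univ.filter fun k => π k = i).card : ℤ) ≤ h := by exact_mod_cast h2
    rcases he k0 with h3 | h3
    · rw [h3, mul_one]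
      exact ⟨h1'.ne', by rw [abs_of_pos h1']; exact h2'⟩
    · rw [h3]
      refine ⟨by omega, ?_⟩
      rw [mul_neg, mul_one, abs_neg, abs_of_pos h1']
      exact h2'
  · subst hj
    obtain ⟨k0, hk⟩ := hs i
    rw [PAT_card e π hc i k0 hk]
    have hinj : Function.Injective π := Finite.injective_iff_surjective.2 fun i => hs i
    have h1 : (Finset.univ.filter fun k => π k = i) = {k0} := by
      ext k
      rw [Finset.mem_filter, Finset.mem_singleton]
      constructor
      · rintro ⟨-, h2⟩
        exact hinj (h2.trans hk.symm)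
      · rintro rfl
        exact ⟨Finset.mem_univ _, hk⟩
    rw [h1, Finset.card_singleton]
    rcases he k0 with h3 | h3
    · left
      rw [h3]
      norm_num
    · right
      rw [h3]
      norm_num

open Classical in
theorem PAT : PAT_stmt := by
  intro h hh A P K1 K2 hK1 hK2 hA hB e he
  -- the covering
  let T : ℕ → Finset (Fin h → ℕ) := fun j =>
    (Finset.univ : Finset (Fin h → Fin j)).biUnion fun π =>
      if (1 ≤ j ∧ Cf h (PAT_c e π) ∧ (j = h → Sg (PAT_c e π))) then
        (RQ (PAT_c e π) P A).image (fun y k => y (π k)) else ∅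
  have hcov : NC e P A ⊆ (Finset.range (h + 1)).biUnion T := by
    intro x hx
    unfold NC at hx
    rw [Finset.mem_filter, Fintype.mem_piFinset] at hx
    obtain ⟨hxA, hxc, hxP⟩ := hx
    have hj : (im x).card ≤ h := by
      have h1 := Finset.card_image_le (s := (Finset.univ : Finset (Fin h))) (f := x)
      rwa [Finset.card_univ, Fintype.card_fin] at h1
    have hj1 : 1 ≤ (im x).card :=
      Finset.card_pos.2 ⟨x ⟨0, hh⟩, Finset.mem_image_of_mem _ (Finset.mem_univ _)⟩
    set y := (im x).orderEmbOfFin rfl with hy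
    have hyr : ∀ k, ∃ i, y i = x k := by
      intro k
      have h1 : x k ∈ Set.range y := by
        rw [hy, Finset.range_orderEmbOfFin]
        exact Finset.mem_image_of_mem _ (Finset.mem_univ _)
      exact h1
    choose π hπ using hyr
    have hym : ∀ i, ∃ k, x k = y i := by
      intro i
      have h1 : y i ∈ im x := Finset.orderEmbOfFin_mem _ _ _
      unfold im at h1
      rw [Finset.mem_image] at h1
      obtain ⟨k, -, hk⟩ := h1
      exact ⟨k, hk⟩
    have hs : ∀ i, ∃ k, π k = i := by
      intro i
      obtain ⟨k, hk⟩ := hym i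
      refine ⟨k, y.injective ?_⟩
      rw [hπ, hk]
    have hc : ∀ k k', π k = π k' → e k = e k' := by
      intro k k' hkk
      by_contra hne
      apply hxc k k' hne
      rw [← hπ k, ← hπ k', hkk]
    rw [Finset.mem_biUnion]
    refine ⟨(im x).card, Finset.mem_range.2 (by omega), ?_⟩
    change x ∈ (Finset.univ : Finset (Fin h → Fin (im x).card)).biUnion _
    rw [Finset.mem_biUnion]
    refine ⟨π, Finset.mem_univ _, ?_⟩
    obtain ⟨hg1, hg2⟩ := PAT_good e he π hs hc
    rw [if_pos ⟨hj1, hg1, hg2⟩, Finset.mem_image]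
    refine ⟨fun i => y i, ?_, ?_⟩
    · unfold RQ Inj
      rw [Finset.mem_filter, Finset.mem_filter, Fintype.mem_piFinset]
      refine ⟨⟨fun i => ?_, y.injective⟩, ?_⟩
      · obtain ⟨k, hk⟩ := hym i
        rw [← hk]
        exact hxA k
      · rw [PAT_lf]
        have h1 : (fun k => (fun i => y i) (π k)) = x := by
          funext k
          exact hπ k
        rw [h1]
        exact hxP
    · funext k
      exact hπ k
  have hTj : ∀ j ∈ Finset.range (h + 1), ((T j).card : ℝ) ≤ (h : ℝ) ^ h * (K1 + K2) := by
    intro j hj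
    have hjh : j ≤ h := by
      rw [Finset.mem_range] at hj
      omega
    have h1 : ((T j).card : ℝ) ≤ ∑ π : Fin h → Fin j, (K1 + K2) := by
      have h2 : (T j).card ≤ ∑ π : Fin h → Fin j,
          (if (1 ≤ j ∧ Cf h (PAT_c e π) ∧ (j = h → Sg (PAT_c e π))) then
            (RQ (PAT_c e π) P A).image (fun y k => y (π k)) else ∅ : Finset (Fin h → ℕ)).card :=
        Finset.card_biUnion_le
      have h3 : ((T j).card : ℝ) ≤ ∑ π : Fin h → Fin j,
          (((if (1 ≤ j ∧ Cf h (PAT_c e π) ∧ (j = h → Sg (PAT_c e π))) then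
            (RQ (PAT_c e π) P A).image (fun y k => y (π k)) else ∅ : Finset (Fin h → ℕ)).card : ℕ) : ℝ) := by
        exact_mod_cast h2
      refine h3.trans (Finset.sum_le_sum fun π _ => ?_)
      split_ifs with hif
      · obtain ⟨hj1, hg1, hg2⟩ := hif
        have h4 : (((RQ (PAT_c e π) P A).image (fun y k => y (π k))).card : ℝ) ≤
            ((RQ (PAT_c e π) P A).card : ℝ) := by
          exact_mod_cast Finset.card_image_le
        refine h4.trans ?_
        rcases Nat.lt_or_ge j h with hlt | hge
        · have := hA j (PAT_c e π) hj1 hlt hg1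
          linarith
        · have hjh' : j = h := le_antisymm hjh hge
          have hsg := hg2 hjh'
          clear_value T
          subst hjh'
          have := hB (PAT_c e π) hsg
          linarith
      · rw [Finset.card_empty, Nat.cast_zero]
        linarith
    rw [Finset.sum_const, Finset.card_univ, Fintype.card_fun, Fintype.card_fin, Fintype.card_fin,
      nsmul_eq_mul] at h1
    refine h1.trans ?_
    have h5 : ((j ^ h : ℕ) : ℝ) ≤ (h : ℝ) ^ h := by
      have : j ^ h ≤ h ^ h := Nat.pow_le_pow_left hjh h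
      exact_mod_cast this
    exact mul_le_mul_of_nonneg_right h5 (by linarith)
  have h6 : ((NC e P A).card : ℝ) ≤ ∑ j ∈ Finset.range (h + 1), ((T j).card : ℝ) := by
    have h7 := (Finset.card_le_card hcov).trans Finset.card_biUnion_le
    exact_mod_cast h7
  refine h6.trans ((Finset.sum_le_sum hTj).trans (le_of_eq ?_))
  rw [Finset.sum_const, Finset.card_range, nsmul_eq_mul]
  push_cast
  ring

end Pool.Agent.OB
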